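import Mathlib
import Pool.Agent.H270R2.GEN.Defs

/-! ROOM GEN, BLOCK 2 (freeness), task SEQ (table h270g_tasks): an infinite system of pairs
averaging everything.  Prover: helper676. -/

set_option autoImplicit false

open scoped ComplexOrder Topology BoundedContinuousFunction
open Filter

noncomputable section

namespace Pool.Agent.H270G.T_SEQ

open Pool.Agent.H467F Pool.Agent.H735G Pool.Agent.H270G

/-- CEN -/
def HCen : Prop :=
  ∀ (A : Type) [CStarAlgebra A] (τ : A →ₗ[ℂ] ℂ), TW τ → EZP τ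

/-- HALF -/
def HHalf : Prop :=
  ∀ (A : Type) [CStarAlgebra A] (τ : A →ₗ[ℂ] ℂ), TW τ → NoAbA A →
    ∃ s t : A, star s = s ∧ s * s = 1 ∧ star t = t ∧ t * t = 1 ∧ s * t = -(t * s)

/-- REL -/
def HRel : Prop :=
  ∀ (A : Type) [CStarAlgebra A] (τ : A →ₗ[ℂ] ℂ), TW τ → NoAbA A →
    ∀ (s t : ℕ → A) (K : ℕ), PauK s t K →
    ∃ (B : Type) (_ : CStarAlgebra B) (ι : B →⋆ₐ[ℂ] A) (σ : B →ₗ[ℂ] ℂ),
      TW σ ∧ NoAbA B ∧ Function.Injective ι ∧ (∀ b, ‖ι b‖ = ‖b‖) ∧ (∀ b, σ b = τ (ι b)) ∧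
      (∀ x : A, (∀ j < K, s j * x = x * s j ∧ t j * x = x * t j) → ∃ b, ι b = x) ∧
      (∀ b, ∀ j < K, s j * ι b = ι b * s j ∧ t j * ι b = ι b * t j) ∧
      (∀ b, ι (EZ σ b) = EZ τ (ι b))

/-- AVP -/
def HAvp : Prop :=
  ∀ (A : Type) [CStarAlgebra A] (τ : A →ₗ[ℂ] ℂ), TW τ →
    ∀ (s t : ℕ → A) (K : ℕ), PauK s t K →
    (∀ x y, av s t K (x + y) = av s t K x + av s t K y) ∧
    (∀ x y, av s t K (x - y) = av s t K x - av s t K y) ∧
    (∀ (c : ℂ) x, av s t K (c • x) = c • av s t K x) ∧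
    (∀ x, ‖av s t K x‖ ≤ ‖x‖) ∧
    (∀ x, n2 τ (av s t K x) ≤ n2 τ x) ∧
    (∀ x, EZ τ (av s t K x) = EZ τ x) ∧
    (∀ x, (∀ y, x * y = y * x) → av s t K x = x) ∧
    (∀ x, ∀ j < K, s j * av s t K x = av s t K x * s j ∧ t j * av s t K x = av s t K x * t j) ∧
    (∀ x, (∀ j < K, s j * x = x * s j ∧ t j * x = x * t j) → av s t K x = x) ∧
    (∀ x, ∀ j ≤ K, n2 τ (av s t K x - EZ τ x) ≤ n2 τ (av s t j x - EZ τ x))

/-- AVG -/
def HAvg : Prop :=
  ∀ (A : Type) [CStarAlgebra A] (τ : A →ₗ[ℂ] ℂ), TW τ → NoAbA A →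
    ∀ (y : A) (ε : ℝ), 0 < ε →
      ∃ (K : ℕ) (s t : ℕ → A), PauK s t K ∧ n2 τ (av s t K y - EZ τ y) ≤ ε

set_option linter.unusedSectionVars false

variable {A : Type} [CStarAlgebra A] {τ : A →ₗ[ℂ] ℂ}

theorem av_congr {s t s' t' : ℕ → A} : ∀ {K : ℕ}, (∀ j < K, s j = s' j ∧ t j = t' j) → ∀ y,
    av s t K y = av s' t' K y
  | 0, _, _ => rfl
  | k + 1, h, y => by
    have h1 := av_congr (K := k) (fun j hj => h j (Nat.lt_succ_of_lt hj)) y
    obtain ⟨e1, e2⟩ := h k (Nat.lt_succ_self k)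
    simp only [av]
    rw [h1, e1, e2]

theorem pau_congr {s t s' t' : ℕ → A} {K K' : ℕ} (hK : K ≤ K')
    (h : ∀ j < K, s j = s' j ∧ t j = t' j) (hp : PauK s' t' K') : PauK s t K := by
  refine ⟨?_, ?_, ?_, ?_, ?_, ?_, ?_, ?_⟩
  · intro j hj
    rw [(h j hj).1]
    exact hp.ss j (lt_of_lt_of_le hj hK)
  · intro j hj
    rw [(h j hj).1]
    exact hp.s1 j (lt_of_lt_of_le hj hK)
  · intro j hj
    rw [(h j hj).2]
    exact hp.ts j (lt_of_lt_of_le hj hK)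
  · intro j hj
    rw [(h j hj).2]
    exact hp.t1 j (lt_of_lt_of_le hj hK)
  · intro j hj
    rw [(h j hj).1, (h j hj).2]
    exact hp.anti j (lt_of_lt_of_le hj hK)
  · intro j hj k hk
    rw [(h j hj).1, (h k hk).1]
    exact hp.css j (lt_of_lt_of_le hj hK) k (lt_of_lt_of_le hk hK)
  · intro j hj k hk
    rw [(h j hj).2, (h k hk).2]
    exact hp.ctt j (lt_of_lt_of_le hj hK) k (lt_of_lt_of_le hk hK)
  · intro j hj k hk hjk
    rw [(h j hj).1, (h k hk).2]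
    exact hp.cst j (lt_of_lt_of_le hj hK) k (lt_of_lt_of_le hk hK) hjk

/-- Append a system of the commutant. -/
def app {B : Type} (K : ℕ) (s : ℕ → A) (f : B → A) (s1 : ℕ → B) (j : ℕ) : A :=
  if j < K then s j else f (s1 (j - K))

theorem app_lt {B : Type} {K : ℕ} {s : ℕ → A} {f : B → A} {s1 : ℕ → B} {j : ℕ} (h : j < K) :
    app K s f s1 j = s j := if_pos h

theorem app_ge {B : Type} {K : ℕ} {s : ℕ → A} {f : B → A} {s1 : ℕ → B} {j : ℕ} (h : K ≤ j) :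
    app K s f s1 j = f (s1 (j - K)) := if_neg (not_lt.2 h)

theorem app_add {B : Type} {K : ℕ} {s : ℕ → A} {f : B → A} {s1 : ℕ → B} (j : ℕ) :
    app K s f s1 (K + j) = f (s1 j) := by
  rw [app_ge (Nat.le_add_right K j), Nat.add_sub_cancel_left]

theorem pau_app {B : Type} [CStarAlgebra B] {ι : B →⋆ₐ[ℂ] A} {s t : ℕ → A} {K : ℕ}
    (hp : PauK s t K)
    (hc : ∀ b, ∀ j < K, s j * ι b = ι b * s j ∧ t j * ι b = ι b * t j)
    {s1 t1 : ℕ → B} {K1 : ℕ} (hp1 : PauK s1 t1 K1) :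
    PauK (app K s ι s1) (app K t ι t1) (K + K1) := by
  refine ⟨?_, ?_, ?_, ?_, ?_, ?_, ?_, ?_⟩
  · intro j hj
    rcases lt_or_ge j K with h | h
    · rw [app_lt h]
      exact hp.ss j h
    · rw [app_ge h, ← map_star, hp1.ss _ (by omega)]
  · intro j hj
    rcases lt_or_ge j K with h | h
    · rw [app_lt h]
      exact hp.s1 j h
    · rw [app_ge h, ← map_mul, hp1.s1 _ (by omega), map_one]
  · intro j hj
    rcases lt_or_ge j K with h | h
    · rw [app_lt h]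
      exact hp.ts j h
    · rw [app_ge h, ← map_star, hp1.ts _ (by omega)]
  · intro j hj
    rcases lt_or_ge j K with h | h
    · rw [app_lt h]
      exact hp.t1 j h
    · rw [app_ge h, ← map_mul, hp1.t1 _ (by omega), map_one]
  · intro j hj
    rcases lt_or_ge j K with h | h
    · rw [app_lt h, app_lt h]
      exact hp.anti j h
    · rw [app_ge h, app_ge h, ← map_mul, hp1.anti _ (by omega), map_neg, map_mul]
  · intro j hj k hk
    rcases lt_or_ge j K with h | h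
    · rcases lt_or_ge k K with h' | h'
      · rw [app_lt h, app_lt h']
        exact hp.css j h k h'
      · rw [app_lt h, app_ge h']
        exact (hc _ j h).1
    · rcases lt_or_ge k K with h' | h'
      · rw [app_ge h, app_lt h']
        exact ((hc _ k h').1).symm
      · rw [app_ge h, app_ge h', ← map_mul, hp1.css _ (by omega) _ (by omega), map_mul]
  · intro j hj k hk
    rcases lt_or_ge j K with h | h
    · rcases lt_or_ge k K with h' | h'
      · rw [app_lt h, app_lt h']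
        exact hp.ctt j h k h'
      · rw [app_lt h, app_ge h']
        exact (hc _ j h).2
    · rcases lt_or_ge k K with h' | h'
      · rw [app_ge h, app_lt h']
        exact ((hc _ k h').2).symm
      · rw [app_ge h, app_ge h', ← map_mul, hp1.ctt _ (by omega) _ (by omega), map_mul]
  · intro j hj k hk hjk
    rcases lt_or_ge j K with h | h
    · rcases lt_or_ge k K with h' | h'
      · rw [app_lt h, app_lt h']
        exact hp.cst j h k h' hjk
      · rw [app_lt h, app_ge h']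
        exact (hc _ j h).1
    · rcases lt_or_ge k K with h' | h'
      · rw [app_ge h, app_lt h']
        exact ((hc _ k h').2).symm
      · rw [app_ge h, app_ge h', ← map_mul, hp1.cst _ (by omega) _ (by omega) (by omega), map_mul]

theorem av_app {B : Type} [CStarAlgebra B] {ι : B →⋆ₐ[ℂ] A} {s t : ℕ → A} {K : ℕ}
    {s1 t1 : ℕ → B} {y : A} {b : B} (hb : ι b = av s t K y) : ∀ K1,
    av (app K s ι s1) (app K t ι t1) (K + K1) y = ι (av s1 t1 K1 b)
  | 0 => by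
    change av _ _ K y = ι b
    rw [hb]
    exact av_congr (fun j hj => ⟨app_lt hj, app_lt hj⟩) y
  | k + 1 => by
    have ih := av_app (s1 := s1) (t1 := t1) hb k
    rw [← Nat.add_assoc]
    simp only [av]
    rw [ih, app_add, app_add, map_smul, map_add, map_add, map_add]
    simp only [map_mul]

theorem n2_map {B : Type} [CStarAlgebra B] {ι : B →⋆ₐ[ℂ] A} {σ : B →ₗ[ℂ] ℂ}
    (hσ : ∀ b, σ b = τ (ι b)) (b : B) : n2 τ (ι b) = n2 σ b := by
  unfold n2
  rw [hσ, map_mul ι, map_star ι]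

/-- One more pair. -/
theorem ext0 (hH : HHalf) (hR : HRel) (h : TW τ) (hA : NoAbA A) {s t : ℕ → A} {K : ℕ}
    (hp : PauK s t K) :
    ∃ s' t' : ℕ → A, PauK s' t' (K + 1) ∧ ∀ j < K, s' j = s j ∧ t' j = t j := by
  obtain ⟨B, instB, ι, σ, hσ, hB, -, -, -, -, hc, -⟩ := hR A τ h hA s t K hp
  obtain ⟨a, b, a1, a2, b1, b2, ab⟩ := hH B σ hσ hB
  have hp1 : PauK (fun _ => a) (fun _ => b) 1 := by
    refine ⟨fun _ _ => a1, fun _ _ => a2, fun _ _ => b1, fun _ _ => b2, fun _ _ => ab,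
      fun _ _ _ _ => rfl, fun _ _ _ _ => rfl, ?_⟩
    intro j hj k hk hjk
    omega
  exact ⟨_, _, pau_app hp hc hp1, fun j hj => ⟨app_lt hj, app_lt hj⟩⟩

/-- One more element averaged. -/
theorem ext1 (hR : HRel) (hP : HAvp) (hG : HAvg) (h : TW τ) (hA : NoAbA A)
    {s t : ℕ → A} {K : ℕ} (hp : PauK s t K) (y : A) (ε : ℝ) (hε : 0 < ε) :
    ∃ (K' : ℕ) (s' t' : ℕ → A), K ≤ K' ∧ PauK s' t' K' ∧ (∀ j < K, s' j = s j ∧ t' j = t j) ∧
      n2 τ (av s' t' K' y - EZ τ y) ≤ ε := by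
  obtain ⟨B, instB, ι, σ, hσ, hB, -, -, hστ, hex, hc, hEZ⟩ := hR A τ h hA s t K hp
  obtain ⟨-, -, -, -, -, p6, -, p8, -, -⟩ := hP A τ h s t K hp
  obtain ⟨b, hb⟩ := hex (av s t K y) (p8 y)
  obtain ⟨K1, s1, t1, hp1, h1⟩ := hG B σ hσ hB b ε hε
  refine ⟨K + K1, _, _, Nat.le_add_right _ _, pau_app hp hc hp1,
    fun j hj => ⟨app_lt hj, app_lt hj⟩, ?_⟩
  rw [av_app hb, ← p6 y, ← hb, ← hEZ, ← map_sub, n2_map hστ]
  exact h1

/-- A proper extension of a system which averages one more element. -/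
theorem ext2 (hH : HHalf) (hR : HRel) (hP : HAvp) (hG : HAvg) (h : TW τ) (hA : NoAbA A)
    {s t : ℕ → A} {K : ℕ} (hp : PauK s t K) (y : A) (ε : ℝ) (hε : 0 < ε) :
    ∃ (K' : ℕ) (s' t' : ℕ → A), K < K' ∧ PauK s' t' K' ∧ (∀ j < K, s' j = s j ∧ t' j = t j) ∧
      n2 τ (av s' t' K' y - EZ τ y) ≤ ε := by
  obtain ⟨K1, s1, t1, hK1, hp1, e1, h1⟩ := ext1 hR hP hG h hA hp y ε hε
  obtain ⟨s2, t2, hp2, e2⟩ := ext0 hH hR h hA hp1
  refine ⟨K1 + 1, s2, t2, by omega, hp2, fun j hj => ?_, ?_⟩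
  · have h3 := e1 j hj
    have h4 := e2 j (by omega)
    exact ⟨h4.1.trans h3.1, h4.2.trans h3.2⟩
  · obtain ⟨-, -, -, -, -, -, -, -, -, p10⟩ := hP A τ h s2 t2 (K1 + 1) hp2
    refine (p10 y K1 (Nat.le_succ K1)).trans ?_
    rw [av_congr e2 y]
    exact h1

/-- SEQ: an infinite system which averages everything. -/
theorem pau_seq (hC : HCen) (hH : HHalf) (hR : HRel) (hP : HAvp) (hG : HAvg)
    (h : TW τ) (hS : SepT τ) (hA : NoAbA A) :
    ∃ s t : ℕ → A, (∀ K, PauK s t K) ∧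
      ∀ y, Tendsto (fun k => n2 τ (av s t k y - EZ τ y)) atTop (𝓝 0) := by
  obtain ⟨q, hq⟩ := hS
  -- the step function
  have step : ∀ (S : {p : ℕ × (ℕ → A) × (ℕ → A) // PauK p.2.1 p.2.2 p.1}) (n : ℕ),
      ∃ S' : {p : ℕ × (ℕ → A) × (ℕ → A) // PauK p.2.1 p.2.2 p.1},
        S.1.1 < S'.1.1 ∧ (∀ j < S.1.1, S'.1.2.1 j = S.1.2.1 j ∧ S'.1.2.2 j = S.1.2.2 j) ∧
        n2 τ (av S'.1.2.1 S'.1.2.2 S'.1.1 (q n.unpair.1) - EZ τ (q n.unpair.1)) ≤
          1 / ((n : ℝ) + 1) := by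
    intro S n
    obtain ⟨K', s', t', k1, k2, k3, k4⟩ := ext2 hH hR hP hG h hA S.2 (q n.unpair.1)
      (1 / ((n : ℝ) + 1)) (by positivity)
    exact ⟨⟨(K', s', t'), k2⟩, k1, k3, k4⟩
  choose f f1 f2 f3 using step
  have hp0 : PauK (fun _ : ℕ => (0 : A)) (fun _ => 0) 0 := by
    refine ⟨?_, ?_, ?_, ?_, ?_, ?_, ?_, ?_⟩ <;> intro j hj <;> exact absurd hj (Nat.not_lt_zero j)
  let S : ℕ → {p : ℕ × (ℕ → A) × (ℕ → A) // PauK p.2.1 p.2.2 p.1} := fun n =>
    Nat.rec ⟨(0, fun _ => 0, fun _ => 0), hp0⟩ (fun n S => f S n) n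
  have hS1 : ∀ n, S (n + 1) = f (S n) n := fun n => rfl
  have hK : ∀ n, (S n).1.1 < (S (n + 1)).1.1 := fun n => by
    rw [hS1]
    exact f1 _ _
  have hKn : ∀ n, n ≤ (S n).1.1 := by
    intro n
    induction n with
    | zero => exact Nat.zero_le _
    | succ n ih =>
      have := hK n
      omega
  have hmono : ∀ n d, (S n).1.1 ≤ (S (n + d)).1.1 ∧
      ∀ j < (S n).1.1, (S (n + d)).1.2.1 j = (S n).1.2.1 j ∧
        (S (n + d)).1.2.2 j = (S n).1.2.2 j := by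
    intro n d
    induction d with
    | zero => exact ⟨le_refl _, fun j _ => ⟨rfl, rfl⟩⟩
    | succ d ih =>
      refine ⟨ih.1.trans (hK (n + d)).le, fun j hj => ?_⟩
      have h1 := f2 (S (n + d)) (n + d) j (lt_of_lt_of_le hj ih.1)
      have h2 := ih.2 j hj
      change (f (S (n + d)) (n + d)).1.2.1 j = _ ∧ (f (S (n + d)) (n + d)).1.2.2 j = _
      exact ⟨h1.1.trans h2.1, h1.2.trans h2.2⟩
  let s : ℕ → A := fun j => (S (j + 1)).1.2.1 j
  let t : ℕ → A := fun j => (S (j + 1)).1.2.2 j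
  have hst : ∀ n, ∀ j < (S n).1.1, s j = (S n).1.2.1 j ∧ t j = (S n).1.2.2 j := by
    intro n j hj
    have hj1 : j < (S (j + 1)).1.1 := lt_of_lt_of_le (Nat.lt_succ_self j) (hKn (j + 1))
    rcases le_total n (j + 1) with h1 | h1
    · obtain ⟨d, hd⟩ := Nat.exists_eq_add_of_le h1
      have := (hmono n d).2 j hj
      rw [← hd] at this
      exact this
    · obtain ⟨d, hd⟩ := Nat.exists_eq_add_of_le h1
      have := (hmono (j + 1) d).2 j hj1
      rw [← hd] at this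
      exact ⟨this.1.symm, this.2.symm⟩
  have hpK : ∀ K, PauK s t K := fun K =>
    pau_congr (hKn K) (fun j hj => hst K j (lt_of_lt_of_le hj (hKn K))) (S K).2
  refine ⟨s, t, hpK, fun y => ?_⟩
  have hez := hC A τ h
  rw [Metric.tendsto_atTop]
  intro ε hε
  obtain ⟨m, hm⟩ := hq y (ε / 4) (by positivity)
  obtain ⟨i, hi⟩ := exists_nat_gt (4 / ε)
  have hi1 : 1 / ((Nat.pair m i : ℝ) + 1) ≤ ε / 4 := by
    have h1 : (i : ℝ) ≤ (Nat.pair m i : ℝ) := by exact_mod_cast Nat.right_le_pair m i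
    rw [div_le_iff₀ (by positivity)]
    have h2 : 4 / ε * (ε / 4) = 1 := by field_simp
    have h3 : 4 / ε * (ε / 4) ≤ ((Nat.pair m i : ℝ) + 1) * (ε / 4) := by
      apply mul_le_mul_of_nonneg_right _ (by positivity)
      linarith
    linarith
  have hn := f3 (S (Nat.pair m i)) (Nat.pair m i)
  rw [Nat.unpair_pair] at hn
  change n2 τ (av _ _ _ (q m) - EZ τ (q m)) ≤ _ at hn
  refine ⟨(S (Nat.pair m i + 1)).1.1, fun k hk => ?_⟩
  obtain ⟨-, p2, -, -, p5, -, -, -, -, p10⟩ := hP A τ h s t k (hpK k)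
  have h1 : n2 τ (av s t k (q m) - EZ τ (q m)) ≤ ε / 4 := by
    refine (p10 (q m) _ hk).trans ?_
    rw [av_congr (hst (Nat.pair m i + 1)) (q m)]
    exact hn.trans hi1
  have h2 : n2 τ (av s t k y - av s t k (q m)) ≤ n2 τ (y - q m) := by
    rw [← p2]
    exact p5 _
  have h3 : n2 τ (EZ τ (q m) - EZ τ y) ≤ n2 τ (y - q m) := by
    rw [← hez.sub, n2_sub_comm τ y (q m)]
    exact hez.n2_le _
  have h4 := h.n2_tri (av s t k y) (av s t k (q m)) (EZ τ y)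
  have h5 := h.n2_tri (av s t k (q m)) (EZ τ (q m)) (EZ τ y)
  rw [Real.dist_eq, sub_zero, abs_of_nonneg (n2_nonneg _ _)]
  linarith

end Pool.Agent.H270G.T_SEQ
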